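import Mathlib

open Polynomial

namespace Pool.Agent.Results.MP_441cc7_al.ShiftedProductsIndep

/-- `P k t i = ∏_{j = 1}^{k - 1} (x - t (i + j))`. -/
noncomputable def P (k : ℕ) (t : ℕ → ℝ) (i : ℕ) : ℝ[X] :=
  ∏ j ∈ Finset.Icc 1 (k - 1), (X - C (t (i + j)))

/-- The same product indexed from zero. -/
noncomputable def Q (m : ℕ) (t : ℕ → ℝ) (i : ℕ) : ℝ[X] :=
  ∏ j ∈ Finset.range m, (X - C (t (i + j + 1)))

lemma P_eq (m : ℕ) (t : ℕ → ℝ) (i : ℕ) : P (m + 1) t i = Q m t i := by
  unfold P Q
  rw [Nat.add_sub_cancel, ← Finset.Ico_add_one_right_eq_Icc, Finset.prod_Ico_eq_prod_range]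
  refine Finset.prod_congr rfl fun j _ => ?_
  congr 3; omega

lemma Q_monic (m : ℕ) (t : ℕ → ℝ) (i : ℕ) : (Q m t i).Monic :=
  monic_prod_of_monic _ _ fun _ _ => monic_X_sub_C _

lemma Q_natDegree (m : ℕ) (t : ℕ → ℝ) (i : ℕ) : (Q m t i).natDegree = m := by
  unfold Q
  rw [natDegree_prod_of_monic _ _ fun _ _ => monic_X_sub_C _]
  simp

lemma Q_diff (m : ℕ) (t : ℕ → ℝ) (i : ℕ) :
    Q (m + 1) t (i + 1) - Q (m + 1) t i = (t (i + 1) - t (i + m + 2)) • Q m t (i + 1) := by
  have h1 : Q (m + 1) t (i + 1) = Q m t (i + 1) * (X - C (t (i + m + 2))) := by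
    unfold Q; rw [Finset.prod_range_succ]; congr 4; omega
  have h2 : Q (m + 1) t i = Q m t (i + 1) * (X - C (t (i + 1))) := by
    unfold Q; rw [Finset.prod_range_succ']
    congr 1
    refine Finset.prod_congr rfl fun j _ => ?_
    congr 3; omega
  rw [h1, h2, smul_eq_C_mul, C_sub]; ring

lemma exists_step (c : ℕ → ℝ) (a b : ℕ) (hab : a < b) (h : c b ≤ c a) :
    ∃ i, a ≤ i ∧ i < b ∧ c (i + 1) ≤ c i := by
  by_contra hcon
  push Not at hcon
  have : ∀ n, a < n → n ≤ b → c a < c n := by
    intro n hn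
    induction n, hn using Nat.le_induction with
    | base => intro hb; exact hcon a le_rfl hb
    | succ n hn ih => intro hb; exact (ih (by omega)).trans (hcon n (by omega) hb)
  exact absurd (this b hab le_rfl) (not_lt.2 h)

lemma alt (t : ℕ → ℝ) (ht : StrictMonoOn t (Set.Ici 1)) (l : ℝ[X] →ₗ[ℝ] ℝ) (m : ℕ) :
    ∀ (J : ℕ → ℕ), (∀ r ≤ m, J r < J (r + 1)) →
      (∀ r ≤ m + 1, 0 ≤ (-1) ^ r * l (Q m t (J r))) → ∀ p : ℝ[X], p.natDegree ≤ m → l p = 0 := by
  induction m with
  | zero =>
    intro J _ h p hp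
    have h0 := h 0 (by omega)
    have h1 := h 1 le_rfl
    simp [Q] at h0 h1
    rw [eq_C_of_natDegree_le_zero hp, ← mul_one (C _), ← smul_eq_C_mul, map_smul,
      le_antisymm h1 h0, smul_zero]
  | succ m ih =>
    intro J hJ h
    have hstep : ∀ r, ∃ i, r ≤ m + 1 → J r ≤ i ∧ i < J (r + 1) ∧
        0 ≤ (-1) ^ r * l (Q m t (i + 1)) := by
      intro r
      by_cases hr : r ≤ m + 1
      · obtain ⟨i, h1, h2, h3⟩ := exists_step (fun i => (-1) ^ r * l (Q (m + 1) t i)) _ _ (hJ r hr)
          (by
            have a1 := h r (by omega)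
            have a2 := h (r + 1) (by omega)
            rw [pow_succ] at a2
            linarith)
        refine ⟨i, fun _ => ⟨h1, h2, ?_⟩⟩
        have hd := congrArg l (Q_diff m t i)
        rw [map_sub, map_smul, smul_eq_mul] at hd
        have hlt : t (i + 1) < t (i + m + 2) :=
          ht (by simp) (by simp only [Set.mem_Ici]; omega) (by omega)
        have : (t (i + 1) - t (i + m + 2)) * ((-1) ^ r * l (Q m t (i + 1))) ≤ 0 := by
          have : (-1) ^ r * (l (Q (m + 1) t (i + 1)) - l (Q (m + 1) t i)) ≤ 0 := by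
            linarith
          rw [hd] at this; linarith
        by_contra hneg
        push Not at hneg
        nlinarith
      · exact ⟨0, fun h => absurd h hr⟩
    choose I hI using hstep
    have hlow := ih (fun r => I r + 1) (fun r hr => by
      have a1 := hI r (by omega)
      have a2 := hI (r + 1) (by omega)
      omega) (fun r hr => (hI r hr).2.2)
    have hconst : ∀ i, l (Q (m + 1) t i) = l (Q (m + 1) t 0) := by
      intro i
      induction i with
      | zero => rfl
      | succ i ihi =>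
        have hd := congrArg l (Q_diff m t i)
        rw [map_sub, map_smul, hlow _ (Q_natDegree _ _ _).le, smul_zero] at hd
        linarith
    have h0 := h 0 (by omega)
    have h1 := h 1 (by omega)
    rw [hconst] at h0 h1
    have hz : l (Q (m + 1) t 0) = 0 := by linarith
    intro p hp
    have hdeg : (p - p.coeff (m + 1) • Q (m + 1) t 0).natDegree ≤ m := by
      rw [natDegree_le_iff_coeff_eq_zero]
      intro N hN
      rw [coeff_sub, coeff_smul, smul_eq_mul]
      rcases Nat.lt_or_eq_of_le (show m + 1 ≤ N from hN) with h | h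
      · rw [coeff_eq_zero_of_natDegree_lt (p := p) (n := N) (by omega),
          coeff_eq_zero_of_natDegree_lt (p := Q (m + 1) t 0) (by rw [Q_natDegree]; omega)]
        simp
      · subst h
        have := (Q_monic (m + 1) t 0).coeff_natDegree
        rw [Q_natDegree] at this
        rw [this]; simp
    have := hlow _ hdeg
    rwa [map_sub, map_smul, hz, smul_zero, sub_zero] at this

theorem result (k : ℕ) (hk : 2 ≤ k) (t : ℕ → ℝ) (ht : StrictMonoOn t (Set.Ici 1))
    (i : Fin k → ℕ) (hi : StrictMono i) : LinearIndependent ℝ (fun l : Fin k => P k t (i l)) := by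
  obtain ⟨m, rfl⟩ : ∃ m, k = m + 1 := ⟨k - 1, by omega⟩
  simp only [P_eq]
  have hmem : ∀ p : ℝ[X], p ∈ degreeLT ℝ (m + 1) ↔ p.natDegree ≤ m := by
    intro p
    rw [mem_degreeLT, ← Nat.lt_succ_iff]
    by_cases hp : p = 0
    · simp [hp]
    · rw [natDegree_lt_iff_degree_lt hp]
  let S := Submodule.span ℝ (Set.range fun l : Fin (m + 1) => Q m t (i l))
  have hle : degreeLT ℝ (m + 1) ≤ S := by
    intro p hp
    by_contra hnot
    obtain ⟨l, hl1, hl2⟩ := Submodule.exists_dual_map_eq_bot_of_notMem hnot inferInstance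
    have hz : ∀ r : Fin (m + 1), l (Q m t (i r)) = 0 := fun r => by
      have : l (Q m t (i r)) ∈ S.map l := Submodule.mem_map_of_mem (Submodule.subset_span ⟨r, rfl⟩)
      rwa [hl2, Submodule.mem_bot] at this
    let J : ℕ → ℕ := fun r => if h : r < m + 1 then i ⟨r, h⟩ else i (Fin.last m) + 1
    have hJ : ∀ r ≤ m, J r < J (r + 1) := by
      intro r hr
      simp only [J, dif_pos (show r < m + 1 by omega)]
      split_ifs with h
      · exact hi (by simp)
      · exact Nat.lt_succ_of_le (hi.monotone (Fin.le_last _))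
    have key : ∀ l' : ℝ[X] →ₗ[ℝ] ℝ, (∀ r : Fin (m + 1), l' (Q m t (i r)) = 0) →
        0 ≤ (-1) ^ (m + 1) * l' (Q m t (J (m + 1))) → l' p = 0 := by
      intro l' h1 h2
      refine alt t ht l' m J hJ (fun r hr => ?_) p ((hmem p).1 hp)
      rcases Nat.lt_or_eq_of_le hr with h | h
      · simp only [J, dif_pos h, h1]; simp
      · rw [h]; exact h2
    rcases le_total 0 ((-1) ^ (m + 1) * l (Q m t (J (m + 1)))) with h | h
    · exact hl1 (key l hz h)
    · have := key (-l) (fun r => by simp [hz r]) (by simp only [LinearMap.neg_apply]; linarith)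
      exact hl1 (by simpa using this)
  rw [linearIndependent_iff_card_le_finrank_span]
  have h1 : Module.finrank ℝ (degreeLT ℝ (m + 1)) = m + 1 := by
    rw [(degreeLTEquiv ℝ (m + 1)).finrank_eq]; simp
  haveI : FiniteDimensional ℝ S := FiniteDimensional.span_of_finite ℝ (Set.finite_range _)
  have := Submodule.finrank_mono hle
  rw [h1] at this
  simpa [Set.finrank] using this

end Pool.Agent.Results.MP_441cc7_al.ShiftedProductsIndep
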